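import Pool.Agent.H519R2.Coro.TSP
import Pool.Agent.H390R2.LP.Main

/-! MP_3f7b2e_co: the worst-case Euclidean TSP constant in high dimensions equals, up to a factor
between `1` and `d/(d-1)`, twice the `d`-th root of `θ_d / V_d`; so `α'_d / θ_d^{1/d} → 2/√(2πe)`. -/

open Filter
open scoped Topology

namespace Pool.Agent.Results.MP_3f7b2e_co.PackingEquivalence

open Pool.Agent.H519R2.TSP

theorem result :
    (∀ d : ℕ, 2 ≤ d →
      (∀ n : ℕ, BddAbove {t | ∃ S : Finset (EuclideanSpace ℝ (Fin d)),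
        (∀ x ∈ S, ∀ i, 0 ≤ x i ∧ x i ≤ 1) ∧ S.card = n ∧ T S = t}) ∧
      IsBoundedUnder (· ≤ ·) atTop
        (fun n : ℕ => L d n / (n : ℝ) ^ (((d : ℝ) - 1) / d)) ∧
      (∀ n : ℕ, 2 ≤ n →
        2 * (theta d / ballVol d) ^ ((1 : ℝ) / d) * (n : ℝ) ^ (((d : ℝ) - 1) / d) ≤ L d n) ∧
      2 * (theta d / ballVol d) ^ ((1 : ℝ) / d) ≤ alpha d ∧
      alpha d ≤ d / (d - 1) * (2 * (theta d / ballVol d) ^ ((1 : ℝ) / d))) ∧
    Tendsto (fun d : ℕ => alpha' d / theta d ^ ((1 : ℝ) / d)) atTop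
      (𝓝 (2 / √(2 * Real.pi * Real.exp 1))) ∧
    liminf alpha' atTop =
      2 / √(2 * Real.pi * Real.exp 1) * liminf (fun d : ℕ => theta d ^ ((1 : ℝ) / d)) atTop ∧
    limsup alpha' atTop =
      2 / √(2 * Real.pi * Real.exp 1) * limsup (fun d : ℕ => theta d ^ ((1 : ℝ) / d)) atTop ∧
    (∀ a : ℝ, Tendsto alpha' atTop (𝓝 a) ↔
      Tendsto (fun d : ℕ => theta d ^ ((1 : ℝ) / d)) atTop
        (𝓝 (a * √(2 * Real.pi * Real.exp 1) / 2))) ∧
    1 / √(2 * Real.pi * Real.exp 1) ≤ liminf alpha' atTop ∧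
    limsup alpha' atTop ≤ (2 : ℝ) ^ (397 / 1000 : ℝ) / √(2 * Real.pi * Real.exp 1) := by
  have hG := G_pos
  have hG' : (2 : ℝ) / √(2 * Real.pi * Real.exp 1) = G := rfl
  have hs : 0 < √(2 * Real.pi * Real.exp 1) := by positivity
  refine ⟨?_, tendsto_ratio, liminf_alpha, limsup_alpha, ?_, ?_, ?_⟩
  · intro d hd
    have : NeZero d := ⟨by omega⟩
    have h1 : 2 * (theta d / ballVol d) ^ ((1 : ℝ) / d) = 2 / kap d :=
      (two_div_kap (by omega : 0 < d)).symm
    rw [h1]
    exact ⟨L_bdd, bdd_above hd, fun n hn => le_L hn, le_alpha hd, alpha_le hd⟩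
  · intro a
    have hd := tendsto_diff
    constructor
    · intro h
      have h1 : Tendsto (fun d : ℕ => (alpha' d - (alpha' d - G * tt d)) / G) atTop
          (𝓝 ((a - 0) / G)) := (h.sub hd).div_const G
      have h2 : (a - 0) / G = a * √(2 * Real.pi * Real.exp 1) / 2 := by
        unfold G; field_simp; ring
      rw [h2] at h1
      refine h1.congr (fun d => ?_)
      change _ = tt d
      field_simp
      ring
    · intro h
      have h1 : Tendsto (fun d : ℕ => (alpha' d - G * tt d) + G * tt d) atTop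
          (𝓝 (0 + G * (a * √(2 * Real.pi * Real.exp 1) / 2))) := hd.add (h.const_mul G)
      have h2 : 0 + G * (a * √(2 * Real.pi * Real.exp 1) / 2) = a := by
        unfold G; field_simp; ring
      rw [h2] at h1
      refine h1.congr (fun d => ?_)
      ring
  · rw [liminf_alpha]
    have h1 : 1 / 2 ≤ liminf tt atTop := by
      apply le_liminf_of_le tt_bdd.isCoboundedUnder_ge
      filter_upwards [eventually_gt_atTop 0] with d hd
      exact le_tt hd
    calc 1 / √(2 * Real.pi * Real.exp 1) = G * (1 / 2) := by unfold G; field_simp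
      _ ≤ G * liminf tt atTop := mul_le_mul_of_nonneg_left h1 hG.le
  · exact limsup_alpha_new Pool.Agent.H390R2.LP.iid

end Pool.Agent.Results.MP_3f7b2e_co.PackingEquivalence
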